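import Pool.Agent.L7h3.GL.Stm

set_option autoImplicit false

/-! Part EX of project GL. -/

namespace Pool.Agent.L7h89.GL

open Pool.Agent.L7h3.GL

theorem le_tp {L : Type} [CompleteLattice L] {b : L} {T : Set L} {z : L} (h : Gen b T z) :
    z ≤ tp b T := by
  rw [h]
  exact sup_le_sup_left (sSup_le_sSup fun a ha => ha.1) b

theorem gen_sup {L : Type} [CompleteLattice L] {b : L} {T : Set L} {z a : L} (hb : b ≤ z)
    (h : Gen b T z) (ha : a ∈ T) : Gen b T (z ⊔ a) := by
  apply le_antisymm
  · refine sup_le ?_ ?_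
    · have hsub : {a' | a' ∈ T ∧ a' ≤ z} ⊆ {a' | a' ∈ T ∧ a' ≤ z ⊔ a} := fun a' ha' =>
        ⟨ha'.1, ha'.2.trans le_sup_left⟩
      exact h.le.trans (sup_le_sup_left (sSup_le_sSup hsub) b)
    · exact le_sup_of_le_right (le_sSup ⟨ha, le_sup_right⟩)
  · exact sup_le (hb.trans le_sup_left) (sSup_le fun a' ha' => ha'.2)

theorem s_EX : S_EX := by
  intro L _ ρ hρ b T
  have key : ∀ n : ℕ, ∀ z : L, ρ (tp b T) - ρ z ≤ n → Cv b T → b ≤ z → Gen b T z → z < tp b T →
      ∃ l, Pc (tp b T) z l ∧ ∀ y ∈ l, Gen b T y := by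
    intro n
    induction n with
    | zero =>
      intro z hn hT hb hz hlt
      have := hρ.mono z (tp b T) hlt
      omega
    | succ n ih =>
      intro z hn hT hb hz hlt
      by_cases hcov : z ⋖ tp b T
      · refine ⟨[z], ⟨rfl, List.isChain_singleton z, ?_⟩, ?_⟩
        · intro y hy
          simp only [List.getLast?_singleton, Option.some.injEq] at hy
          exact hy ▸ hcov
        · intro y hy
          rw [List.mem_singleton] at hy
          exact hy ▸ hz
      · obtain ⟨a, ha, haz⟩ : ∃ a ∈ T, ¬ a ≤ z := by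
          by_contra hcon
          push Not at hcon
          exact absurd (sup_le hb (sSup_le hcon)) (not_le_of_gt hlt)
        have h1 : z ⋖ z ⊔ a := hρ.sm b a z (hT a ha) hb haz
        have h2 : z ⊔ a ≤ tp b T := le_tp (gen_sup hb hz ha)
        have h3 : z ⊔ a < tp b T := by
          refine lt_of_le_of_ne h2 fun heq => hcov ?_
          rw [← heq]
          exact h1
        have h4 := hρ.mono z (z ⊔ a) h1.lt
        have h5 := hρ.mono z (tp b T) hlt
        obtain ⟨l, ⟨hl1, hl2, hl3⟩, hl4⟩ := ih (z ⊔ a) (by omega) hT (hb.trans le_sup_left)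
          (gen_sup hb hz ha) h3
        obtain ⟨l', rfl⟩ : ∃ l', l = (z ⊔ a) :: l' := by
          cases l with
          | nil => simp at hl1
          | cons c l' =>
            simp only [List.head?_cons, Option.some.injEq] at hl1
            exact ⟨l', by rw [hl1]⟩
        refine ⟨z :: (z ⊔ a) :: l', ⟨rfl, List.isChain_cons_cons.2 ⟨h1, hl2⟩, ?_⟩, ?_⟩
        · intro y hy
          refine hl3 y ?_
          rwa [List.getLast?_cons_cons] at hy
        · intro y hy
          rcases List.mem_cons.1 hy with rfl | hy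
          · exact hz
          · exact hl4 y hy
  intro z hT hb hz hlt
  exact key _ z le_rfl hT hb hz hlt

end Pool.Agent.L7h89.GL
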